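import Pool.Agent.Lib.MP_d92c84_an.Fin

/-!
# MP_d92c84_an: the inverse drum problem for finite sums of circular standing waves

If a drum solution `z` on a simple closed curve `R` is, in the enclosed region, a finite sum of circular standing
waves `a J_m (ω r / c) cos (m θ - α) cos (ω t - τ)` in polar coordinates about one point, with any finite set of
frequencies `ω` and angular orders `m`, and the spatial gradient of `z` vanishes at all times along a simple closed
curve in the closed region, then `R` is a circle.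
-/

set_option autoImplicit false

namespace Pool.Agent.Results.MP_d92c84_an.FiniteCircularModes

open Set
open scoped ComplexConjugate

/-- A simple closed curve in the plane `ℂ = ℝ²`. -/
def IsSimpleClosedCurve (R : Set ℂ) : Prop :=
  ∃ g : Circle → ℂ, Continuous g ∧ Function.Injective g ∧ range g = R

/-- `D` is the bounded open region enclosed by the simple closed curve `R`. -/
structure Encloses (R D : Set ℂ) : Prop where
  isOpen : IsOpen D
  connected : IsConnected D
  bounded : Bornology.IsBounded D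
  frontier_eq : frontier D = R

/-- `z` is a drum solution on `R` (wave speed `c`), `G = z_x + i z_y` is its spatial gradient, extended
continuously to the closure of `D`. -/
structure IsDrumSolution (c : ℝ) (R D : Set ℂ) (z : ℂ → ℝ → ℝ) (G : ℂ → ℝ → ℂ) : Prop where
  contDiffOn : ContDiffOn ℝ 2 (fun q : ℂ × ℝ => z q.1 q.2) (D ×ˢ univ)
  continuousOn : ContinuousOn (fun q : ℂ × ℝ => z q.1 q.2) (closure D ×ˢ univ)
  gradient : ∀ x ∈ D, ∀ t, HasGradientAt (fun y => z y t) (G x t) x
  continuousOn_gradient : ContinuousOn (fun q : ℂ × ℝ => G q.1 q.2) (closure D ×ˢ univ)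
  wave : ∀ x ∈ D, ∀ t, iteratedDeriv 2 (z x) t = c ^ 2 * Laplacian.laplacian (fun y => z y t) x
  clamped : ∀ x ∈ R, ∀ t, z x t = 0
  nonzero : ∃ x ∈ closure D, ∃ t, z x t ≠ 0

/-- The Bessel function `J_m` of the first kind. -/
noncomputable def besselJ (m : ℕ) (x : ℝ) : ℝ :=
  ∑' j : ℕ, (-1) ^ j * (x / 2) ^ (2 * j + m) / (j.factorial * (j + m).factorial)

/-- On `D`, `z` is a finite sum of circular standing waves about one point `p`. -/
def IsFiniteCircular (c : ℝ) (D : Set ℂ) (z : ℂ → ℝ → ℝ) : Prop :=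
  ∃ (p : ℂ) (n : ℕ) (ω a α τ : Fin n → ℝ) (m : Fin n → ℕ), (∀ i, 0 < ω i) ∧ ∀ x ∈ D, ∀ t : ℝ,
    z x t = ∑ i, a i * besselJ (m i) (ω i * ‖x - p‖ / c) * Real.cos (m i * (x - p).arg - α i) *
      Real.cos (ω i * t - τ i)

open DrumF in
theorem result {c : ℝ} (hc : 0 < c) {R D γ : Set ℂ} (hR : IsSimpleClosedCurve R) (hD : Encloses R D)
    {z : ℂ → ℝ → ℝ} {G : ℂ → ℝ → ℂ} (hz : IsDrumSolution c R D z G) (hfin : IsFiniteCircular c D z)
    (hγ : IsSimpleClosedCurve γ) (hγD : γ ⊆ closure D) (hcrit : ∀ x ∈ γ, ∀ t, G x t = 0) :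
    ∃ (q : ℂ) (ρ : ℝ), 0 < ρ ∧ R = Metric.sphere q ρ := by
  classical
  obtain ⟨gR, hgRc, hgRi, hgRr⟩ := hR
  obtain ⟨-, -, -, hRi, -, hRc⟩ := param hgRc hgRi hgRr
  obtain ⟨gγ, hgγc, hgγi, hgγr⟩ := hγ
  obtain ⟨g, hg, hgr, hγi, hγc, -⟩ := param hgγc hgγi hgγr
  obtain ⟨p, n, ω, a, α, τ, m, hω, hsum⟩ := hfin
  -- grouping by frequencies
  set S : Finset ℝ := Finset.univ.image ω with hS
  have hSpos : ∀ w ∈ S, 0 < w := by
    intro w hw
    obtain ⟨i, -, rfl⟩ := Finset.mem_image.1 hw
    exact hω i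
  set M : ℕ := Finset.univ.sup m with hM
  set P : ℝ → ℕ → ℂ := fun w k => ∑ i ∈ Finset.univ.filter fun i => ω i = w ∧ m i = k,
    ((a i * Real.cos (τ i) : ℝ) : ℂ) * Complex.exp (-(α i * Complex.I)) with hP
  set Q : ℝ → ℕ → ℂ := fun w k => ∑ i ∈ Finset.univ.filter fun i => ω i = w ∧ m i = k,
    ((a i * Real.sin (τ i) : ℝ) : ℂ) * Complex.exp (-(α i * Complex.I)) with hQ
  -- regrouping identity
  have hgroup : ∀ (b : Fin n → ℂ) (f : ℝ → ℝ) (x : ℂ),
      ∑ i, f (ω i) * (b i * Hp (ω i / (2 * c)) (m i) (x - p)).re =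
        ∑ w ∈ S, f w * (∑ k ∈ Finset.range (M + 1),
          (∑ i ∈ Finset.univ.filter fun i => ω i = w ∧ m i = k, b i) * Hp (w / (2 * c)) k (x - p)).re := by
    intro b f x
    have h1 : ∑ i, f (ω i) * (b i * Hp (ω i / (2 * c)) (m i) (x - p)).re =
        ∑ w ∈ S, ∑ i ∈ Finset.univ.filter fun i => ω i = w,
          f (ω i) * (b i * Hp (ω i / (2 * c)) (m i) (x - p)).re := by
      rw [Finset.sum_fiberwise_of_maps_to fun i _ => Finset.mem_image_of_mem ω (Finset.mem_univ i)]
    rw [h1]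
    refine Finset.sum_congr rfl fun w _ => ?_
    have h2 : ∑ i ∈ Finset.univ.filter fun i => ω i = w,
          f (ω i) * (b i * Hp (ω i / (2 * c)) (m i) (x - p)).re =
        ∑ k ∈ Finset.range (M + 1), ∑ i ∈ (Finset.univ.filter fun i => ω i = w).filter fun i => m i = k,
          f (ω i) * (b i * Hp (ω i / (2 * c)) (m i) (x - p)).re := by
      rw [Finset.sum_fiberwise_of_maps_to fun i _ => Finset.mem_range.2 (Nat.lt_succ_of_le
        (Finset.le_sup (f := m) (Finset.mem_univ i)))]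
    rw [h2, Complex.re_sum, Finset.mul_sum]
    refine Finset.sum_congr rfl fun k _ => ?_
    rw [Finset.filter_filter, Finset.sum_mul, Complex.re_sum, Finset.mul_sum]
    refine Finset.sum_congr rfl fun i hi => ?_
    obtain ⟨-, hi1, hi2⟩ := Finset.mem_filter.1 hi
    rw [hi1, hi2]
  -- the global jets
  set Z : ℕ → ℕ → ℂ → ℝ → ℂ := fun k l x t => ∑ w ∈ S, ((Real.cos (w * t) : ℂ) * W (w / (2 * c)) (P w) M p k l x +
    (Real.sin (w * t) : ℂ) * W (w / (2 * c)) (Q w) M p k l x) with hZ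
  have hzD : ∀ x ∈ D, ∀ t, (z x t : ℂ) = Z 0 0 x t := by
    intro x hx t
    rw [hsum x hx t]
    have h1 : ∀ i : Fin n, a i * besselJ (m i) (ω i * ‖x - p‖ / c) * Real.cos (m i * (x - p).arg - α i) *
        Real.cos (ω i * t - τ i) =
        Real.cos (ω i * t) * (((a i * Real.cos (τ i) : ℝ) * Complex.exp (-(α i * Complex.I))) *
          Hp (ω i / (2 * c)) (m i) (x - p)).re +
        Real.sin (ω i * t) * (((a i * Real.sin (τ i) : ℝ) * Complex.exp (-(α i * Complex.I))) *
          Hp (ω i / (2 * c)) (m i) (x - p)).re := fun i => wave_term _ _ _ _ _ _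
    rw [Finset.sum_congr rfl fun i _ => h1 i, Finset.sum_add_distrib,
      hgroup (fun i => ((a i * Real.cos (τ i) : ℝ) : ℂ) * Complex.exp (-(α i * Complex.I)))
        (fun w => Real.cos (w * t)) x,
      hgroup (fun i => ((a i * Real.sin (τ i) : ℝ) : ℂ) * Complex.exp (-(α i * Complex.I)))
        (fun w => Real.sin (w * t)) x, ← Finset.sum_add_distrib]
    simp only [hZ, W_zero]
    rw [Complex.ofReal_sum]
    refine Finset.sum_congr rfl fun w _ => ?_
    rw [Complex.ofReal_add, Complex.ofReal_mul, Complex.ofReal_mul]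
  have hZcont : ∀ k l, ∀ t, Continuous fun x => Z k l x t := by
    intro k l t
    refine continuous_finsetSum _ fun w _ => ?_
    exact (continuous_const.mul ((helm_W _ _ _ _).jet.continuous k l)).add
      (continuous_const.mul ((helm_W _ _ _ _).jet.continuous k l))
  -- extension to the closure
  have hslice : ∀ {f : ℂ → ℝ → ℂ}, ContinuousOn (fun q : ℂ × ℝ => f q.1 q.2) (closure D ×ˢ univ) → ∀ t,
      ContinuousOn (fun x => f x t) (closure D) := by
    intro f hf t
    exact hf.comp (f := fun x : ℂ => (x, t)) (by fun_prop) fun x hx => ⟨hx, mem_univ t⟩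
  have hext : ∀ {f h : ℂ → ℂ}, ContinuousOn f (closure D) → Continuous h → (∀ x ∈ D, f x = h x) →
      ∀ x ∈ closure D, f x = h x := by
    intro f h hf hh he
    have h1 : EqOn f h D := fun x hx => he x hx
    exact h1.of_subset_closure hf hh.continuousOn subset_closure Subset.rfl
  have hzc : ∀ x ∈ closure D, ∀ t, (z x t : ℂ) = Z 0 0 x t := by
    intro x hx t
    refine hext (f := fun y => (z y t : ℂ)) (h := fun y => Z 0 0 y t) ?_ (hZcont 0 0 t)
      (fun y hy => hzD y hy t) x hx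
    refine hslice (f := fun y t => (z y t : ℂ)) ?_ t
    exact Complex.continuous_ofReal.comp_continuousOn hz.continuousOn
  have hGD : ∀ x ∈ D, ∀ t, G x t = 2 * Z 0 1 x t := by
    intro x hx t
    have h1 := hz.gradient x hx t
    rw [hasGradientAt_iff_hasFDerivAt] at h1
    have h2 : HasFDerivAt (fun y => (z y t : ℂ)) (Complex.ofRealCLM.comp (InnerProductSpace.toDual ℝ ℂ (G x t) :
        ℂ →L[ℝ] ℝ)) x := (Complex.ofRealCLM.hasFDerivAt).comp x h1
    have h3 : HasFDerivAt (fun y => Z 0 0 y t) (LL (Z 1 0 x t) (Z 0 1 x t)) x := by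
      have h4 : LL (Z 1 0 x t) (Z 0 1 x t) = ∑ w ∈ S,
          ((Real.cos (w * t) : ℂ) • LL (W (w / (2 * c)) (P w) M p 1 0 x) (W (w / (2 * c)) (P w) M p 0 1 x) +
          (Real.sin (w * t) : ℂ) • LL (W (w / (2 * c)) (Q w) M p 1 0 x) (W (w / (2 * c)) (Q w) M p 0 1 x)) := by
        ext h
        rw [LL_apply, _root_.sum_apply]
        simp only [add_apply, smul_apply, LL_apply, smul_eq_mul, hZ]
        rw [Finset.sum_mul, Finset.sum_mul, ← Finset.sum_add_distrib]
        refine Finset.sum_congr rfl fun w _ => ?_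
        ring
      rw [h4]
      exact HasFDerivAt.fun_sum fun w _ => (((helm_W _ _ _ _).jet 0 0 x).const_mul _).add
        (((helm_W _ _ _ _).jet 0 0 x).const_mul _)
    have h4 : (fun y => (z y t : ℂ)) =ᶠ[nhds x] fun y => Z 0 0 y t := by
      filter_upwards [hD.isOpen.mem_nhds hx] with y hy
      exact hzD y hy t
    have h5 := h2.unique (h3.congr_of_eventuallyEq h4)
    have e1 := DFunLike.congr_fun h5 (1 : ℂ)
    have e2 := DFunLike.congr_fun h5 Complex.I
    rw [LL_apply, ContinuousLinearMap.comp_apply] at e1 e2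
    have e3 : (InnerProductSpace.toDual ℝ ℂ (G x t) : ℂ →L[ℝ] ℝ) (1 : ℂ) = (G x t).re := by
      rw [InnerProductSpace.toDual_apply_apply, Complex.inner]
      simp
    have e4 : (InnerProductSpace.toDual ℝ ℂ (G x t) : ℂ →L[ℝ] ℝ) Complex.I = (G x t).im := by
      rw [InnerProductSpace.toDual_apply_apply, Complex.inner]
      simp
    rw [e3] at e1
    rw [e4] at e2
    rw [map_one] at e1
    rw [Complex.conj_I] at e2
    have e5 : ((G x t).re : ℂ) = Z 1 0 x t * 1 + Z 0 1 x t * 1 := e1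
    have e6 : ((G x t).im : ℂ) = Z 1 0 x t * Complex.I + Z 0 1 x t * -Complex.I := e2
    rw [← Complex.re_add_im (G x t), e5, e6]
    linear_combination (Z 1 0 x t - Z 0 1 x t) * Complex.I_sq
  have hGc : ∀ x ∈ closure D, ∀ t, G x t = 2 * Z 0 1 x t := by
    intro x hx t
    exact hext (f := fun y => G y t) (h := fun y => 2 * Z 0 1 y t) (hslice hz.continuousOn_gradient t)
      (continuous_const.mul (hZcont 0 1 t)) (fun y hy => hGD y hy t) x hx
  have hRD : R ⊆ closure D := by
    rw [← hD.frontier_eq]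
    exact frontier_subset_closure
  have hR0 : ∀ x ∈ R, ∀ w ∈ S, W (w / (2 * c)) (P w) M p 0 0 x = 0 ∧ W (w / (2 * c)) (Q w) M p 0 0 x = 0 := by
    intro x hx
    refine trig_indep S hSpos (fun w => W (w / (2 * c)) (P w) M p 0 0 x) (fun w => W (w / (2 * c)) (Q w) M p 0 0 x)
      fun t => ?_
    have h1 := hzc x (hRD hx) t
    rw [hz.clamped x hx t, Complex.ofReal_zero] at h1
    exact h1.symm
  have hγ0 : ∀ x ∈ γ, ∀ w ∈ S, W (w / (2 * c)) (P w) M p 0 1 x = 0 ∧ W (w / (2 * c)) (Q w) M p 0 1 x = 0 := by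
    intro x hx
    refine trig_indep S hSpos (fun w => W (w / (2 * c)) (P w) M p 0 1 x) (fun w => W (w / (2 * c)) (Q w) M p 0 1 x)
      fun t => ?_
    have h1 := hGc x (hγD hx) t
    rw [hcrit x hx t] at h1
    exact (mul_eq_zero.1 h1.symm).resolve_left two_ne_zero
  by_contra hcon
  have hall : ∀ w ∈ S, (∀ x, W (w / (2 * c)) (P w) M p 0 0 x = 0) ∧ ∀ x, W (w / (2 * c)) (Q w) M p 0 0 x = 0 := by
    intro w hw
    have hκ : 0 < w / (2 * c) := div_pos (hSpos w hw) (by positivity)
    constructor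
    · exact (core hκ (P w) M p hD.isOpen hD.connected.nonempty hD.bounded hD.frontier_eq hRc hRi hg hgr hγi hγc
        (fun x hx => (hR0 x hx w hw).1) fun x hx => (hγ0 x hx w hw).1).resolve_right hcon
    · exact (core hκ (Q w) M p hD.isOpen hD.connected.nonempty hD.bounded hD.frontier_eq hRc hRi hg hgr hγi hγc
        (fun x hx => (hR0 x hx w hw).2) fun x hx => (hγ0 x hx w hw).2).resolve_right hcon
  obtain ⟨x, hx, t, hne⟩ := hz.nonzero
  apply hne
  have h1 := hzc x hx t
  have h2 : Z 0 0 x t = 0 := by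
    refine Finset.sum_eq_zero fun w hw => ?_
    rw [(hall w hw).1, (hall w hw).2, mul_zero, mul_zero, add_zero]
  rw [h2] at h1
  exact_mod_cast h1

end Pool.Agent.Results.MP_d92c84_an.FiniteCircularModes
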