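import Pool.Agent.Lib.MP_d92c84_anF.Fnb
import Pool.Agent.Lib.MP_d92c84_anF.Fnc
import Pool.Agent.Lib.MP_d92c84_anF.Fn3
import Pool.Agent.Lib.MP_d92c84_anF.St3
import Pool.Agent.Lib.MP_d92c84_anF.Joc
import Pool.Agent.Lib.MP_d92c84_anF.Ina
import Pool.Agent.Lib.MP_d92c84_anF.Cnv

/-!
# MP_d92c84_an: below the k-th excited frequency of a drum with a critical curve there are at least 5k eigenvalues

Let `R` be any simple closed curve enclosing `D`, `z` any drum solution on `R` whose spatial gradient vanishes at all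
times along a simple closed curve `γ` in the closed region. Then `γ` lies in the open region; the integral of `z` over
the inside of `γ` is zero at every time; and either `R` is a circle, or whenever `z` has nonzero components along
Dirichlet modes with eigenvalues `l 0 < ... < l m`, at least `5 (m + 1)` Dirichlet eigenvalues of `D` are smaller than
`l m`. In particular `z` is orthogonal to the first five modes.
-/

set_option autoImplicit false

namespace Pool.Agent.Results.MP_d92c84_an.FirstModes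

open Set MeasureTheory
open scoped ContDiff

/-- A simple closed curve in the plane `ℂ = ℝ²`. -/
def IsSimpleClosedCurve (R : Set ℂ) : Prop :=
  ∃ g : Circle → ℂ, Continuous g ∧ Function.Injective g ∧ range g = R

/-- `D` is the bounded open region enclosed by the simple closed curve `R`. -/
structure Encloses (R D : Set ℂ) : Prop where
  isOpen : IsOpen D
  connected : IsConnected D
  bounded : Bornology.IsBounded D
  frontier_eq : frontier D = R

/-- `z` is a drum solution on `R` (wave speed `c`), `G = z_x + i z_y` is its spatial gradient, extended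
continuously to the closure of `D`. -/
structure IsDrumSolution (c : ℝ) (R D : Set ℂ) (z : ℂ → ℝ → ℝ) (G : ℂ → ℝ → ℂ) : Prop where
  contDiffOn : ContDiffOn ℝ 2 (fun q : ℂ × ℝ => z q.1 q.2) (D ×ˢ univ)
  continuousOn : ContinuousOn (fun q : ℂ × ℝ => z q.1 q.2) (closure D ×ˢ univ)
  gradient : ∀ x ∈ D, ∀ t, HasGradientAt (fun y => z y t) (G x t) x
  continuousOn_gradient : ContinuousOn (fun q : ℂ × ℝ => G q.1 q.2) (closure D ×ˢ univ)
  wave : ∀ x ∈ D, ∀ t, iteratedDeriv 2 (z x) t = c ^ 2 * Laplacian.laplacian (fun y => z y t) x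
  clamped : ∀ x ∈ R, ∀ t, z x t = 0
  nonzero : ∃ x ∈ closure D, ∃ t, z x t ≠ 0

/-- `φ` is a solution of `Δφ = -l φ` in `D` that is continuous up to `R` and vanishes on `R` (an eigenfunction of the
Dirichlet problem with eigenvalue `l`, unless it is `0`). -/
structure IsMode (R D : Set ℂ) (l : ℝ) (φ : ℂ → ℝ) : Prop where
  contDiffOn : ContDiffOn ℝ 2 φ D
  continuousOn : ContinuousOn φ (closure D)
  helmholtz : ∀ x ∈ D, Laplacian.laplacian φ x = -l * φ x
  zero : ∀ x ∈ R, φ x = 0

/-- At least `n` eigenvalues of the Dirichlet problem in `D` (counted with multiplicity) are strictly smaller than `l`: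
there are `n` smooth functions with compact support in `D` such that every nontrivial combination `φ` of them satisfies
`∫ |∇φ|² < l ∫ φ²` (in particular they are linearly independent). -/
def EigenvaluesBelow (D : Set ℂ) (l : ℝ) (n : ℕ) : Prop :=
  ∃ φ : Fin n → ℂ → ℝ, (∀ i, ContDiff ℝ ∞ (φ i) ∧ HasCompactSupport (φ i) ∧ tsupport (φ i) ⊆ D) ∧
    ∀ a : Fin n → ℝ, a ≠ 0 →
      ∫ x, ‖gradient (fun y => ∑ i, a i * φ i y) x‖ ^ 2 < l * ∫ x, (∑ i, a i * φ i x) ^ 2

open DrumL

private theorem fm_slice {D : Set ℂ} {z : ℂ → ℝ → ℝ}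
    (h : ContDiffOn ℝ 2 (fun q : ℂ × ℝ => z q.1 q.2) (D ×ˢ univ)) (t : ℝ) : ContDiffOn ℝ 2 (fun y => z y t) D := by
  have h1 : ContDiff ℝ 2 fun y : ℂ => ((y, t) : ℂ × ℝ) := contDiff_id.prodMk contDiff_const
  exact h.comp (f := fun y : ℂ => (y, t)) h1.contDiffOn fun y hy => ⟨hy, mem_univ t⟩

private theorem fm_dz {c : ℝ} {R D : Set ℂ} (hD : Encloses R D) {z : ℂ → ℝ → ℝ} {G : ℂ → ℝ → ℂ}
    (hz : IsDrumSolution c R D z G) : Dz c D z G where
  c2 := hz.contDiffOn
  cont := hz.continuousOn
  contG := hz.continuousOn_gradient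
  grad x hx t := pd_of_gradient (hz.gradient x hx t)
  wave x hx t := by
    have h1 := hz.wave x hx t
    rw [iteratedDeriv_succ, iteratedDeriv_one, laplacian_eq_lap hD.isOpen (fm_slice hz.contDiffOn t) hx] at h1
    exact h1
  bdry x hx t := hz.clamped x (hD.frontier_eq ▸ hx) t

/-- The time derivative is continuous in `D`. -/
private theorem fm_dt {D : Set ℂ} (hD : IsOpen D) {z : ℂ → ℝ → ℝ}
    (h : ContDiffOn ℝ 2 (fun q : ℂ × ℝ => z q.1 q.2) (D ×ˢ univ)) :
    (∀ x ∈ D, ∀ t, HasDerivAt (z x) (deriv (z x) t) t) ∧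
      ContinuousOn (fun q : ℂ × ℝ => deriv (z q.1) q.2) (D ×ˢ univ) := by
  have hopen : IsOpen (D ×ˢ (univ : Set ℝ)) := hD.prod isOpen_univ
  have h1 : ∀ x ∈ D, ∀ t, HasDerivAt (z x) (fderiv ℝ (fun q : ℂ × ℝ => z q.1 q.2) (x, t) (0, 1)) t := by
    intro x hx t
    have h2 : HasFDerivAt (fun q : ℂ × ℝ => z q.1 q.2) (fderiv ℝ (fun q : ℂ × ℝ => z q.1 q.2) (x, t)) (x, t) :=
      ((h.contDiffAt (hopen.mem_nhds ⟨hx, mem_univ t⟩)).differentiableAt (by norm_num)).hasFDerivAt
    have h3 : HasDerivAt (fun s : ℝ => ((x, s) : ℂ × ℝ)) ((0 : ℂ), (1 : ℝ)) t :=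
      (hasDerivAt_const t x).prodMk (hasDerivAt_id t)
    exact h2.comp_hasDerivAt t h3
  refine ⟨fun x hx t => (h1 x hx t).differentiableAt.hasDerivAt, ?_⟩
  have h2 : ContinuousOn (fun q : ℂ × ℝ => fderiv ℝ (fun q : ℂ × ℝ => z q.1 q.2) q (0, 1)) (D ×ˢ univ) :=
    (h.continuousOn_fderiv_of_isOpen hopen (by norm_num)).clm_apply continuousOn_const
  refine h2.congr fun q hq => ?_
  exact (h1 q.1 hq.1 q.2).deriv

/-- A continuous function of one sign on a nonempty open set has a nonzero integral. -/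
private theorem fm_pos {E D : Set ℂ} (hE : IsOpen E) (hEn : E.Nonempty) (hEb : Bornology.IsBounded E)
    (hED : closure E ⊆ D) {f : ℂ → ℝ} (hf : ContinuousOn f D) (hpos : ∀ x ∈ D, 0 < f x) : 0 < ∫ x in E, f x := by
  have hint : IntegrableOn f E := intOn hEb (hf.mono hED)
  rw [setIntegral_pos_iff_support_of_nonneg_ae _ hint]
  · have h1 : Function.support f ∩ E = E := by
      refine inter_eq_right.2 fun x hx => ?_
      exact (hpos x (hED (subset_closure hx))).ne'
    rw [h1]
    exact hE.measure_pos volume hEn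
  · rw [Filter.EventuallyLE, ae_restrict_iff' hE.measurableSet]
    exact Filter.Eventually.of_forall fun x hx => (hpos x (hED (subset_closure hx))).le

private theorem fm_sign {E D : Set ℂ} (hE : IsOpen E) (hEn : E.Nonempty) (hEb : Bornology.IsBounded E)
    (hED : closure E ⊆ D) {f : ℂ → ℝ} (hf : ContinuousOn f D) (h0 : ∫ x in E, f x = 0) :
    (∃ x ∈ D, f x ≤ 0) ∧ ∃ x ∈ D, 0 ≤ f x := by
  constructor
  · by_contra hcon
    push Not at hcon
    have := fm_pos hE hEn hEb hED hf hcon
    rw [h0] at this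
    exact lt_irrefl _ this
  · by_contra hcon
    push Not at hcon
    have := fm_pos hE hEn hEb hED (f := fun x => -f x) hf.neg (fun x hx => by simpa using hcon x hx)
    rw [integral_neg, h0, neg_zero] at this
    exact lt_irrefl _ this

/-- The test functions in terms of gradients. -/
private theorem fm_below {D : Set ℂ} {l : ℝ} {n : ℕ} (h : Below l D n) : EigenvaluesBelow D l n := by
  obtain ⟨φ, hφ, hneg⟩ := h
  refine ⟨φ, fun i => ⟨(hφ i).smooth, (hφ i).comp, (hφ i).sub⟩, fun a ha => ?_⟩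
  have hT : ∀ s : Finset (Fin n), Tst D (fun x => ∑ i ∈ s, a i * φ i x) := by
    classical
    intro s
    induction s using Finset.induction_on with
    | empty =>
      simp only [Finset.sum_empty]
      exact ⟨contDiff_const, HasCompactSupport.zero, by simp [tsupport]⟩
    | insert i s hi ih =>
      simp only [Finset.sum_insert hi]
      exact ((hφ i).smul (a i)).add ih
  exact (q_neg_iff (hT Finset.univ).smooth (hT Finset.univ).comp).1 (hneg a ha)

/-- For every simple closed curve `R` enclosing `D` and every drum solution `z` on `R` whose spatial gradient vanishes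
at all times along a simple closed curve `γ` in the closed region: `γ` lies in the open region `D`; the integral of `z`
over the region enclosed by `γ` is zero at every time; at no time is `z`, or its time derivative, of one strict sign in
`D`; and either `R` is a circle, or whenever `z` has nonzero components along `m + 1` Dirichlet eigenfunctions with
eigenvalues `l 0 < ... < l m`, at least `5 (m + 1)` Dirichlet eigenvalues of `D` are strictly below `l m`. -/
theorem result {c : ℝ} (hc : 0 < c) {R D γ : Set ℂ} (hR : IsSimpleClosedCurve R) (hD : Encloses R D)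
    {z : ℂ → ℝ → ℝ} {G : ℂ → ℝ → ℂ} (hz : IsDrumSolution c R D z G) (hγ : IsSimpleClosedCurve γ)
    (hγD : γ ⊆ closure D) (hcrit : ∀ x ∈ γ, ∀ t, G x t = 0) :
    γ ⊆ D ∧ (∀ E, Encloses γ E → closure E ⊆ D ∧ ∀ t, ∫ x in E, z x t = 0) ∧
      (∀ t, (∃ x ∈ D, z x t ≤ 0) ∧ (∃ x ∈ D, 0 ≤ z x t) ∧ (∃ x ∈ D, deriv (z x) t ≤ 0) ∧ ∃ x ∈ D, 0 ≤ deriv (z x) t) ∧
      ((∃ (q : ℂ) (ρ : ℝ), 0 < ρ ∧ R = Metric.sphere q ρ) ∨
        ∀ (m : ℕ) (l : Fin (m + 1) → ℝ) (φ : Fin (m + 1) → ℂ → ℝ), StrictMono l → (∀ i, IsMode R D (l i) (φ i)) →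
          (∀ i, ∃ t, ∫ x in D, z x t * φ i x ≠ 0) → EigenvaluesBelow D (l (Fin.last m)) (5 * (m + 1))) := by
  obtain ⟨gR, hgR, hgRi, hgRr⟩ := hR
  obtain ⟨gγ, hgγ, hgγi, hgγr⟩ := hγ
  have hfR : frontier D = R := hD.frontier_eq
  have hDz : Dz c D z G := fm_dz hD hz
  have hDo := hD.isOpen
  have hDb := hD.bounded
  have hDc := hD.connected
  have hne : ∃ x ∈ D, ∃ t, z x t ≠ 0 := by
    obtain ⟨x, hx, t, hxt⟩ := hz.nonzero
    refine ⟨x, ?_, t, hxt⟩
    by_contra hxD
    refine hxt (hDz.bdry x ?_ t)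
    rw [frontier, hDo.interior_eq]
    exact ⟨hx, hxD⟩
  have hRc : IsPreconnected (frontier D) := by
    rw [hfR, ← hgRr]
    have h1 : range gR = range (gR ∘ Circle.exp) := by rw [Circle.exp_surjective.range_comp]
    rw [h1]
    exact isPreconnected_range (hgR.comp Circle.exp.continuous)
  have hγc : IsPreconnected γ := by
    rw [← hgγr]
    have h1 : range gγ = range (gγ ∘ Circle.exp) := by rw [Circle.exp_surjective.range_comp]
    rw [h1]
    exact isPreconnected_range (hgγ.comp Circle.exp.continuous)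
  have h1 : γ ⊆ D := by
    rw [← hgγr] at hγD hcrit ⊢
    exact curve_inside hDo hDb hDc hc hDz hne hgR hgRi (hgRr.trans hfR.symm) hgγ hgγi hγD hcrit
  obtain ⟨Ω, hΩ, hΩc, hΩb, hΩf, -⟩ := exists_inside hgγ hgγi
  rw [hgγr] at hΩf
  have hΩD : closure Ω ⊆ D := inside_sub hDo hDb hRc hΩ hΩc hΩb (hΩf.trans h1)
  have hΩ0 : ∀ t, ∫ x in Ω, z x t = 0 := fun t =>
    drum_mean_zero hDo hDb hc hDz hΩ hΩD (fun x hx t => hcrit x (hΩf hx) t) t
  refine ⟨h1, fun E hE => ?_, fun t => ?_, ?_⟩
  · have hEf : frontier E ⊆ D := by rw [hE.frontier_eq]; exact h1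
    have hED : closure E ⊆ D := inside_sub hDo hDb hRc hE.isOpen hE.connected hE.bounded hEf
    refine ⟨hED, fun t => drum_mean_zero hDo hDb hc hDz hE.isOpen hED (fun x hx t => hcrit x ?_ t) t⟩
    rw [← hE.frontier_eq]
    exact hx
  · have hs := fm_sign hΩ hΩc.nonempty hΩb hΩD (fm_slice hz.contDiffOn t).continuousOn (hΩ0 t)
    obtain ⟨hd1, hd2⟩ := fm_dt hDo hz.contDiffOn
    have hcz : ContinuousOn (fun q : ℂ × ℝ => z q.1 q.2) (closure Ω ×ˢ univ) :=
      hz.contDiffOn.continuousOn.mono (prod_mono hΩD Subset.rfl)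
    have h3 := hasDerivAt_intD hΩb hΩ.measurableSet (f := z) (f' := fun x t => deriv (z x) t) hcz
      (hd2.mono (prod_mono hΩD Subset.rfl)) (fun x hx t => hd1 x (hΩD (subset_closure hx)) t) t
    have h4 : ∫ x in Ω, deriv (z x) t = 0 := by
      have h5 : (fun t => ∫ x in Ω, z x t) = fun _ => 0 := funext hΩ0
      rw [h5] at h3
      exact h3.unique (hasDerivAt_const t 0)
    have hdt : ContinuousOn (fun x => deriv (z x) t) D := by
      have h1 : ContinuousOn (fun y : ℂ => ((y, t) : ℂ × ℝ)) D := by fun_prop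
      exact hd2.comp (f := fun y : ℂ => (y, t)) h1 fun y hy => ⟨hy, mem_univ t⟩
    have hs' := fm_sign hΩ hΩc.nonempty hΩb hΩD hdt h4
    exact ⟨hs.1, hs.2, hs'.1, hs'.2⟩
  · by_cases hcirc : ∃ (q : ℂ) (ρ : ℝ), 0 < ρ ∧ R = Metric.sphere q ρ
    · exact Or.inl hcirc
    · refine Or.inr fun m l φ hlm hφ hex => ?_
      have hlap : ∀ i, ∀ x ∈ D, lap (φ i) x = -l i * φ i x := fun i x hx => by
        rw [← laplacian_eq_lap hDo (hφ i).contDiffOn hx]
        exact (hφ i).helmholtz x hx
      choose t₀ ht₀ using hex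
      have hext := fun i => extract3 hDo hDb hc hDz (hφ i).continuousOn (hφ i).contDiffOn
        (fun x hx => (hφ i).zero x (hfR ▸ hx)) (hlap i) (ht₀ i)
      choose hl v hv hvn hq hi hi1 hi2 hb1 hb2 hcr using hext
      rcases static3 hl hlm hDo hDb hDc hγc h1 hΩ hΩc.nonempty hΩD hΩf hv hvn
        (fun i x hx => hcr i x (h1 hx) (hcrit x hx)) hq hi hi1 hi2 hb1 hb2 with ⟨q, ρ, hρ, hsub⟩ | h5
      · refine absurd ⟨q, ρ, hρ, ?_⟩ hcirc
        have hcontg : Continuous fun ζ : Circle => q + ρ * (ζ : ℂ) := by fun_prop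
        have hinjg : Function.Injective fun ζ : Circle => q + ρ * (ζ : ℂ) := by
          intro a b hab
          have h6 : (ρ : ℂ) * (a : ℂ) = ρ * (b : ℂ) := add_left_cancel hab
          have h7 : (a : ℂ) = b := mul_left_cancel₀ (by exact_mod_cast hρ.ne') h6
          exact Circle.ext h7
        have hr : range (fun ζ : Circle => q + ρ * (ζ : ℂ)) = Metric.sphere q ρ := by
          ext y
          rw [mem_range, mem_sphere_iff_norm]
          constructor
          · rintro ⟨ζ, rfl⟩
            have h9 : ‖(ζ : ℂ)‖ = 1 := Circle.norm_coe ζ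
            rw [add_sub_cancel_left, norm_mul, h9, mul_one, Complex.norm_real, Real.norm_eq_abs, abs_of_pos hρ]
          · intro hy
            have hn : ‖(y - q) / ρ‖ = 1 := by
              rw [norm_div, hy, Complex.norm_real, Real.norm_eq_abs, abs_of_pos hρ, div_self hρ.ne']
            refine ⟨⟨(y - q) / ρ, mem_sphere_zero_iff_norm.2 hn⟩, ?_⟩
            change q + ρ * ((y - q) / ρ) = y
            rw [mul_div_cancel₀ _ (by exact_mod_cast hρ.ne')]
            ring
        have h8 := curve_eq hcontg hinjg hgR hgRi (by rw [hr, hgRr, ← hfR]; exact hsub)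
        rw [hr, hgRr] at h8
        exact h8.symm
      · exact fm_below (by rw [Nat.mul_add]; exact h5)

end Pool.Agent.Results.MP_d92c84_an.FirstModes
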