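import Pool.Agent.Lib.MP_d92c84_an.Gra

/-!
# MP_d92c84_an: drum solutions that are superpositions of plane waves

If a drum solution `z` on a simple closed curve `R` is, in the enclosed region, a finite or infinite superposition of
plane waves `a cos (k · x - c |k| t + τ)` with `∑ |a| (1 + |k|) < ∞` and finitely many waves of each frequency, then
its spatial gradient does not vanish at all times along any simple closed curve in the closed region.
-/

set_option autoImplicit false

namespace Pool.Agent.Results.MP_d92c84_an.PlaneWaveSuperpositions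

open Set
open scoped ComplexConjugate

/-- A simple closed curve in the plane `ℂ = ℝ²`. -/
def IsSimpleClosedCurve (R : Set ℂ) : Prop :=
  ∃ g : Circle → ℂ, Continuous g ∧ Function.Injective g ∧ range g = R

/-- `D` is the bounded open region enclosed by the simple closed curve `R`. -/
structure Encloses (R D : Set ℂ) : Prop where
  isOpen : IsOpen D
  connected : IsConnected D
  bounded : Bornology.IsBounded D
  frontier_eq : frontier D = R

/-- `z` is a drum solution on `R` (wave speed `c`), `G = z_x + i z_y` is its spatial gradient, extended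
continuously to the closure of `D`. -/
structure IsDrumSolution (c : ℝ) (R D : Set ℂ) (z : ℂ → ℝ → ℝ) (G : ℂ → ℝ → ℂ) : Prop where
  contDiffOn : ContDiffOn ℝ 2 (fun q : ℂ × ℝ => z q.1 q.2) (D ×ˢ univ)
  continuousOn : ContinuousOn (fun q : ℂ × ℝ => z q.1 q.2) (closure D ×ˢ univ)
  gradient : ∀ x ∈ D, ∀ t, HasGradientAt (fun y => z y t) (G x t) x
  continuousOn_gradient : ContinuousOn (fun q : ℂ × ℝ => G q.1 q.2) (closure D ×ˢ univ)
  wave : ∀ x ∈ D, ∀ t, iteratedDeriv 2 (z x) t = c ^ 2 * Laplacian.laplacian (fun y => z y t) x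
  clamped : ∀ x ∈ R, ∀ t, z x t = 0
  nonzero : ∃ x ∈ closure D, ∃ t, z x t ≠ 0

/-- On `D`, `z` is a superposition of plane waves (`(conj k * x).re` is the inner product of `k` and `x`) with
finitely many waves of each frequency `c ‖k‖`. -/
def IsPlaneWaveSuperposition (c : ℝ) (D : Set ℂ) (z : ℂ → ℝ → ℝ) : Prop :=
  ∃ (a τ : ℕ → ℝ) (k : ℕ → ℂ), (∀ j, k j ≠ 0) ∧ (Summable fun j => |a j| * (1 + ‖k j‖)) ∧
    (∀ w : ℝ, {j | ‖k j‖ = w}.Finite) ∧
    ∀ x ∈ D, ∀ t : ℝ, z x t = ∑' j, a j * Real.cos ((conj (k j) * x).re - c * ‖k j‖ * t + τ j)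

open DrumF in
theorem result {c : ℝ} (hc : 0 < c) {R D γ : Set ℂ} (_ : IsSimpleClosedCurve R) (hD : Encloses R D)
    {z : ℂ → ℝ → ℝ} {G : ℂ → ℝ → ℂ} (hz : IsDrumSolution c R D z G) (hsup : IsPlaneWaveSuperposition c D z)
    (hγ : IsSimpleClosedCurve γ) (hγD : γ ⊆ closure D) : ¬ ∀ x ∈ γ, ∀ t, G x t = 0 := by
  intro hcrit
  obtain ⟨g, hg, hinj, hgr⟩ := hγ
  obtain ⟨a, τ, k, hk0, hsum, hfin, hrep⟩ := hsup
  set b : ℕ → ℂ := fun j => (a j : ℂ) * Complex.exp (Complex.I * (τ j : ℂ)) with hb
  have hbn : ∀ j, ‖b j‖ = |a j| := by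
    intro j
    rw [hb]
    simp only
    rw [norm_mul, norm_exp_re, mul_one, Complex.norm_real, Real.norm_eq_abs]
  have hsum' : Summable fun j => ‖b j‖ * (1 + ‖k j‖) := hsum.congr fun j => by rw [hbn]
  have hrep' : ∀ x ∈ D, ∀ t : ℝ, z x t = ∑' j, (pw c b k t j x).re := by
    intro x hx t
    rw [hrep x hx t]
    refine tsum_congr fun j => ?_
    have h1 : pw c b k t j x = (a j : ℂ) *
        Complex.exp ((((conj (k j) * x).re - c * ‖k j‖ * t + τ j : ℝ) : ℂ) * Complex.I) := by
      unfold pw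
      rw [hb]
      simp only
      rw [mul_assoc, ← Complex.exp_add]
      congr 2
      push_cast
      ring
    rw [h1, Complex.re_ofReal_mul, Complex.exp_ofReal_mul_I_re]
  have hcl := sup_closure hD.isOpen hsum' hz.continuousOn hz.gradient hz.continuousOn_gradient hrep'
  obtain ⟨-, hzero⟩ := planes_zero (b := b) hc hk0 hsum' hfin hg hinj (fun s t => by
    have h1 : g s ∈ γ := hgr ▸ mem_range_self s
    have h2 := (hcl (g s) (hγD h1) t).2
    rw [hcrit _ h1 t] at h2
    exact neg_eq_zero.1 h2.symm)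
  obtain ⟨x, hx, t, hne⟩ := hz.nonzero
  apply hne
  rw [(hcl x hx t).1]
  have h1 : (∑' j, pw c b k t j x).re = ∑' j, (pw c b k t j x).re :=
    Complex.re_tsum (Summable.of_norm_bounded (summable_b hsum') fun j => (norm_pw t j x).le)
  rw [← h1]
  have h2 : ∑' j, pw c b k t j x = 0 := hzero x t
  rw [h2, Complex.zero_re]

end Pool.Agent.Results.MP_d92c84_an.PlaneWaveSuperpositions
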