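import Pool.Agent.Lib.MP_d92c84_an.Rot

/-!
# MP_d92c84_an: all drum solutions on all rectangles

A drum solution on a rectangle (of any side lengths, in any position) never has its spatial gradient vanish at all
times along a simple closed curve in the closed rectangle. No assumption beyond those of the question is made on
the solution.
-/

set_option autoImplicit false

namespace Pool.Agent.Results.MP_d92c84_an.Rectangles

open Set

/-- A simple closed curve in the plane `ℂ = ℝ²`. -/
def IsSimpleClosedCurve (R : Set ℂ) : Prop :=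
  ∃ g : Circle → ℂ, Continuous g ∧ Function.Injective g ∧ range g = R

/-- `D` is an open rectangle, with a vertex `p` and sides of lengths `A` and `B` in the directions of the unit
vectors `e` and `i e`. -/
def IsOpenRectangle (D : Set ℂ) : Prop :=
  ∃ (p e : ℂ) (A B : ℝ), ‖e‖ = 1 ∧ 0 < A ∧ 0 < B ∧
    D = (fun x => p + e * x) '' {x : ℂ | 0 < x.re ∧ x.re < A ∧ 0 < x.im ∧ x.im < B}

/-- `z` is a drum solution on the boundary `R` of `D` (wave speed `c`), `G = z_x + i z_y` is its spatial gradient,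
extended continuously to the closure of `D`. -/
structure IsDrumSolution (c : ℝ) (R D : Set ℂ) (z : ℂ → ℝ → ℝ) (G : ℂ → ℝ → ℂ) : Prop where
  contDiffOn : ContDiffOn ℝ 2 (fun q : ℂ × ℝ => z q.1 q.2) (D ×ˢ univ)
  continuousOn : ContinuousOn (fun q : ℂ × ℝ => z q.1 q.2) (closure D ×ˢ univ)
  gradient : ∀ x ∈ D, ∀ t, HasGradientAt (fun y => z y t) (G x t) x
  continuousOn_gradient : ContinuousOn (fun q : ℂ × ℝ => G q.1 q.2) (closure D ×ˢ univ)
  wave : ∀ x ∈ D, ∀ t, iteratedDeriv 2 (z x) t = c ^ 2 * Laplacian.laplacian (fun y => z y t) x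
  clamped : ∀ x ∈ R, ∀ t, z x t = 0
  nonzero : ∃ x ∈ closure D, ∃ t, z x t ≠ 0

theorem result {c : ℝ} (hc : 0 < c) {D γ : Set ℂ} (hD : IsOpenRectangle D) {z : ℂ → ℝ → ℝ} {G : ℂ → ℝ → ℂ}
    (hz : IsDrumSolution c (frontier D) D z G) (hγ : IsSimpleClosedCurve γ) (hγD : γ ⊆ closure D) :
    ¬ ∀ x ∈ γ, ∀ t, G x t = 0 := by
  intro hcrit
  obtain ⟨g, hg, hinj, hgr⟩ := hγ
  obtain ⟨p, e, A, B, he, hA, hB, hD⟩ := hD
  obtain ⟨x, hx, t, hne⟩ := hz.nonzero
  refine hne (DrumF.rect_zero hc hA hB he hD hz.contDiffOn hz.continuousOn hz.gradient hz.continuousOn_gradient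
    hz.wave hz.clamped hg hinj (fun s => hγD (hgr ▸ mem_range_self s)) (fun s t => hcrit _ (hgr ▸ mem_range_self s) t)
    x hx t)

end Pool.Agent.Results.MP_d92c84_an.Rectangles
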